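import Pool.Agent.V11176.SN.Pr

/-!
# Reciprocal supernorms over partitions of `n`: `n W(n) → e^γ`
-/

namespace Pool.Agent.Results.MP_c6faf2_co.SupernormAsymptotic

open Filter Topology

/-- The `k`-th prime `p_k` (`k ≥ 1`): `p₁ = 2`, `p₂ = 3`, …. -/
noncomputable def nthPrime (k : ℕ) : ℕ := Nat.nth Nat.Prime (k - 1)

/-- The supernorm `∏ p_{λ_i}` of a partition. -/
noncomputable def supernorm {n : ℕ} (p : n.Partition) : ℕ := (p.parts.map nthPrime).prod

/-- `Ŵ_size(n) = ∑_{|λ| = n} 1 / N̂(λ)`. -/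
noncomputable def WSize (n : ℕ) : ℝ := ∑ p : n.Partition, 1 / (supernorm p : ℝ)

theorem WSize_eq (n : ℕ) : WSize n = V11176.SN.W V11176.SN.xw n := by
  refine Finset.sum_congr rfl fun p _ => ?_
  rw [V11176.SN.wt, supernorm]
  induction p.parts using Multiset.induction_on with
  | empty => simp
  | cons a s ih =>
    rw [Multiset.map_cons, Multiset.map_cons, Multiset.prod_cons, Multiset.prod_cons, ← ih,
      V11176.SN.xw, Nat.cast_mul]
    change 1 / ((nthPrime a : ℝ) * _) = 1 / (nthPrime a : ℝ) * _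
    rw [one_div_mul_one_div]

/-- `n Ŵ_size(n) → e^γ`. -/
theorem result : Tendsto (fun n : ℕ => (n : ℝ) * WSize n) atTop
    (𝓝 (Real.exp Real.eulerMascheroniConstant)) := by
  simp_rw [WSize_eq]
  exact V11176.SN.main

end Pool.Agent.Results.MP_c6faf2_co.SupernormAsymptotic
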